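import Mathlib
import Pool.Agent.Q157.DualPair

/-!
# Positive Boolean functions with `n + 1` extremal points

A positive Boolean function with exactly `n` relevant variables has `n + 1` extremal points if and
only if it is linear read-once.
-/

namespace Pool.Agent.Results.MP_61c8b8_co.ExtremalPoints

open Pool.Agent.Q157.DualPair

/-! ## Definitions -/

/-- The variable `i` is relevant for `f`. -/
def Relevant {m : ℕ} (f : (Fin m → Bool) → Bool) (i : Fin m) : Prop :=
  ∃ x y : Fin m → Bool, (∀ j, j ≠ i → x j = y j) ∧ f x ≠ f y

/-- `x` is a minimal one of `f`. -/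
def MinOne {m : ℕ} (f : (Fin m → Bool) → Bool) (x : Fin m → Bool) : Prop :=
  f x = true ∧ ∀ y, y < x → f y = false

/-- `x` is a maximal zero of `f`. -/
def MaxZero {m : ℕ} (f : (Fin m → Bool) → Bool) (x : Fin m → Bool) : Prop :=
  f x = false ∧ ∀ y, x < y → f y = true

open Classical in
/-- The number of extremal points (minimal ones and maximal zeros). -/
noncomputable def ext {m : ℕ} (f : (Fin m → Bool) → Bool) : ℕ :=
  (Finset.univ.filter fun x => MinOne f x ∨ MaxZero f x).card

open Classical in
/-- The number of relevant variables. -/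
noncomputable def numRelevant {m : ℕ} (f : (Fin m → Bool) → Bool) : ℕ :=
  (Finset.univ.filter fun i => Relevant f i).card

/-- The value at `x` of `x_{i₁} ∘₁ (x_{i₂} ∘₂ (⋯ ∘_{k-1} x_{i_k}))`: the list contains the pairs
`(i₁, ∘₁), …, (i_{k-1}, ∘_{k-1})`, where `true` stands for `∧` and `false` for `∨`, and `j = i_k`. -/
def chain {m : ℕ} : List (Fin m × Bool) → Fin m → (Fin m → Bool) → Bool
  | [], j, x => x j
  | (i, true) :: l, j, x => x i && chain l j x
  | (i, false) :: l, j, x => x i || chain l j x

/-- `f` is linear read-once: it is constant, or its relevant variables can be listed as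
`x_{i₁}, …, x_{i_k}` such that `f = x_{i₁} ∘₁ (x_{i₂} ∘₂ (⋯ ∘_{k-1} x_{i_k}))`. -/
def LinearReadOnce {m : ℕ} (f : (Fin m → Bool) → Bool) : Prop :=
  (∃ b, ∀ x, f x = b) ∨ ∃ (l : List (Fin m × Bool)) (j : Fin m),
    (l.map Prod.fst ++ [j]).Nodup ∧ (∀ i, Relevant f i ↔ i ∈ l.map Prod.fst ++ [j]) ∧
    ∀ x, f x = chain l j x

/-! ## Upward closed families of finite sets -/

section sets

variable {V : Type*} [Fintype V] [DecidableEq V]

open Classical in
/-- The minimal members. -/
noncomputable def mins (F : Finset V → Prop) : Finset (Finset V) :=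
  Finset.univ.filter fun S => F S ∧ ∀ T, T ⊂ S → ¬ F T

/-- The dual family. -/
def dual (F : Finset V → Prop) : Finset V → Prop := fun S => ¬ F Sᶜ

open Classical in
/-- The relevant points. -/
noncomputable def rel (F : Finset V → Prop) : Finset V :=
  Finset.univ.filter fun v => ∃ S, F (insert v S) ∧ ¬ F (S.erase v)

/-- Upward closed families. -/
def Up (F : Finset V → Prop) : Prop := ∀ S T, S ⊆ T → F S → F T

/-- The number of extremal points. -/
noncomputable def count (F : Finset V → Prop) : ℕ := (mins F).card + (mins (dual F)).card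

theorem mem_mins {F : Finset V → Prop} {S : Finset V} :
    S ∈ mins F ↔ F S ∧ ∀ T, T ⊂ S → ¬ F T := by simp [mins]

theorem mem_rel {F : Finset V → Prop} {v : V} :
    v ∈ rel F ↔ ∃ S, F (insert v S) ∧ ¬ F (S.erase v) := by simp [rel]

theorem dual_dual (F : Finset V → Prop) : dual (dual F) = F := by
  funext S
  simp [dual]

theorem up_dual {F : Finset V → Prop} (hF : Up F) : Up (dual F) := by
  intro S T hST hS hT
  exact hS (hF _ _ (Finset.compl_subset_compl.2 hST) hT)

theorem count_dual (F : Finset V → Prop) : count (dual F) = count F := by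
  unfold count
  rw [dual_dual, add_comm]

theorem exists_min {F : Finset V → Prop} {S : Finset V} (hS : F S) : ∃ A ∈ mins F, A ⊆ S := by
  induction S using Finset.strongInduction with
  | H S ih =>
    by_cases h : ∃ T, T ⊂ S ∧ F T
    · obtain ⟨T, hT, hFT⟩ := h
      obtain ⟨A, hA, hAT⟩ := ih T hT hFT
      exact ⟨A, hA, hAT.trans hT.subset⟩
    · push Not at h
      exact ⟨S, mem_mins.2 ⟨hS, h⟩, subset_rfl⟩

theorem mins_anti {F : Finset V → Prop} {A A' : Finset V} (hA : A ∈ mins F) (hA' : A' ∈ mins F)
    (h : A ⊆ A') : A = A' := by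
  by_contra hne
  exact (mem_mins.1 hA').2 A (Finset.ssubset_iff_subset_ne.2 ⟨h, hne⟩) (mem_mins.1 hA).1

theorem dualPair {F : Finset V → Prop} (hF : Up F) : DualPair (mins F) (mins (dual F)) where
  meets A hA B hB := by
    by_contra h
    rw [Finset.not_nonempty_iff_eq_empty, ← Finset.disjoint_iff_inter_eq_empty] at h
    exact (mem_mins.1 hB).1 (hF A Bᶜ (fun x hx => Finset.mem_compl.2
      (Finset.disjoint_left.1 h hx)) (mem_mins.1 hA).1)
  cover S := by
    by_cases h : F S
    · obtain ⟨A, hA, hAS⟩ := exists_min h
      exact Or.inl ⟨A, hA, hAS⟩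
    · have h1 : dual F Sᶜ := by simpa [dual] using h
      obtain ⟨B, hB, hBS⟩ := exists_min h1
      exact Or.inr ⟨B, hB, Finset.disjoint_left.2 fun x hx => Finset.mem_compl.1 (hBS hx)⟩
  antiP A hA A' hA' h := mins_anti hA hA' h
  antiQ A hA A' hA' h := mins_anti hA hA' h

theorem supp_mins {F : Finset V → Prop} (hF : Up F) : supp (mins F) = rel F := by
  ext v
  rw [mem_supp, mem_rel]
  constructor
  · rintro ⟨A, hA, hv⟩
    refine ⟨A, ?_, (mem_mins.1 hA).2 _ (Finset.erase_ssubset hv)⟩
    rw [Finset.insert_eq_of_mem hv]; exact (mem_mins.1 hA).1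
  · rintro ⟨S, h1, h2⟩
    obtain ⟨A, hA, hAS⟩ := exists_min h1
    refine ⟨A, hA, ?_⟩
    by_contra hv
    apply h2
    refine hF A _ ?_ (mem_mins.1 hA).1
    intro x hx
    have hxv : x ≠ v := fun h => hv (h ▸ hx)
    exact Finset.mem_erase.2 ⟨hxv, (Finset.mem_insert.1 (hAS hx)).resolve_left hxv⟩

theorem rel_dual {F : Finset V → Prop} (hF : Up F) : rel (dual F) = rel F := by
  rw [← supp_mins hF, ← supp_mins (up_dual hF), (dualPair hF).supp_eq]

/-- One step of the recursion: `F = v ∨ G`. -/
theorem or_step {F G : Finset V → Prop} {v : V} (hG : Up G) (hGv : ∀ S, G (insert v S) → G S)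
    (hG0 : ¬ G ∅) (hFG : ∀ S, F S ↔ v ∈ S ∨ G S) :
    count F = count G + 1 ∧ v ∉ rel G ∧ rel F = insert v (rel G) := by
  have hF : Up F := by
    intro S T hST hS
    rw [hFG] at hS ⊢
    exact hS.imp (fun h => hST h) (hG S T hST)
  have hGe : ∀ S, G S → G (S.erase v) := by
    intro S hS
    apply hGv
    exact hG _ _ (Finset.subset_insert_iff.2 subset_rfl) hS
  have hvG : ∀ S ∈ mins G, v ∉ S := by
    intro S hS hv
    exact (mem_mins.1 hS).2 _ (Finset.erase_ssubset hv) (hGe S (mem_mins.1 hS).1)
  have hvG' : ∀ S ∈ mins (dual G), v ∉ S := by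
    intro S hS hv
    apply (mem_mins.1 hS).2 _ (Finset.erase_ssubset hv)
    intro h
    apply (mem_mins.1 hS).1
    apply hGv
    rwa [Finset.compl_erase] at h
  have h1 : mins F = insert {v} (mins G) := by
    ext S
    rw [Finset.mem_insert, mem_mins]
    constructor
    · rintro ⟨h1, h2⟩
      by_cases hv : v ∈ S
      · left
        by_contra hne
        apply h2 {v} (Finset.ssubset_iff_subset_ne.2 ⟨Finset.singleton_subset_iff.2 hv,
          fun h => hne h.symm⟩)
        rw [hFG]; exact Or.inl (Finset.mem_singleton_self v)
      · right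
        rw [mem_mins]
        refine ⟨((hFG S).1 h1).resolve_left hv, fun T hT hGT => h2 T hT ?_⟩
        rw [hFG]; exact Or.inr hGT
    · rintro (rfl | hS)
      · refine ⟨by rw [hFG]; exact Or.inl (Finset.mem_singleton_self v), fun T hT => ?_⟩
        rw [Finset.ssubset_singleton_iff] at hT
        rw [hT, hFG]
        rintro (h | h)
        · exact absurd h (Finset.notMem_empty _)
        · exact hG0 h
      · refine ⟨by rw [hFG]; exact Or.inr (mem_mins.1 hS).1, fun T hT h => ?_⟩
        rw [hFG] at h
        rcases h with h | h
        · exact hvG S hS (hT.subset h)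
        · exact (mem_mins.1 hS).2 T hT h
  have hdF : ∀ S, dual F S ↔ v ∈ S ∧ dual G S := by
    intro S
    unfold dual
    rw [hFG, not_or, Finset.mem_compl, not_not]
  have h2 : mins (dual F) = (mins (dual G)).image (insert v) := by
    ext S
    rw [Finset.mem_image, mem_mins]
    constructor
    · rintro ⟨h1, h2⟩
      rw [hdF] at h1
      refine ⟨S.erase v, ?_, Finset.insert_erase h1.1⟩
      rw [mem_mins]
      constructor
      · intro h
        apply h1.2
        apply hGv
        rwa [Finset.compl_erase] at h
      · intro T hT hGT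
        have hvT : v ∉ T := fun h => Finset.notMem_erase v S (hT.subset h)
        refine h2 (insert v T) ?_ ?_
        · rw [Finset.ssubset_iff_subset_ne]
          constructor
          · intro x hx
            rcases Finset.mem_insert.1 hx with h | h
            · rw [h]; exact h1.1
            · exact Finset.mem_of_mem_erase (hT.subset h)
          · intro h
            apply hT.ne
            rw [← h, Finset.erase_insert hvT]
        · rw [hdF]
          exact ⟨Finset.mem_insert_self _ _, up_dual hG _ _ (Finset.subset_insert _ _) hGT⟩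
    · rintro ⟨T, hT, rfl⟩
      have hvT := hvG' T hT
      constructor
      · rw [hdF]
        exact ⟨Finset.mem_insert_self _ _,
          up_dual hG _ _ (Finset.subset_insert _ _) (mem_mins.1 hT).1⟩
      · intro S hS hFS
        rw [hdF] at hFS
        apply (mem_mins.1 hT).2 (S.erase v)
        · rw [Finset.ssubset_iff_subset_ne]
          constructor
          · intro x hx
            exact (Finset.mem_insert.1 (hS.subset (Finset.mem_of_mem_erase hx))).resolve_left
              (Finset.ne_of_mem_erase hx)
          · intro h
            apply hS.ne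
            rw [← h, Finset.insert_erase hFS.1]
        · intro h
          apply hFS.2
          apply hGv
          rwa [Finset.compl_erase] at h
  have h3 : ({v} : Finset V) ∉ mins G := fun h => hvG _ h (Finset.mem_singleton_self v)
  have h4 : ((mins (dual G)).image (insert v)).card = (mins (dual G)).card := by
    apply Finset.card_image_of_injOn
    intro S hS T hT h
    have h5 := congrArg (fun X => Finset.erase X v) h
    simpa [Finset.erase_insert (hvG' S hS), Finset.erase_insert (hvG' T hT)] using h5
  refine ⟨?_, ?_, ?_⟩
  · unfold count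
    rw [h1, h2, h4, Finset.card_insert_of_notMem h3]
    omega
  · rw [← supp_mins hG, mem_supp]
    rintro ⟨A, hA, hv⟩
    exact hvG A hA hv
  · rw [← supp_mins hF, ← supp_mins hG, h1]
    ext x
    rw [mem_supp, Finset.mem_insert, mem_supp]
    constructor
    · rintro ⟨A, hA, hx⟩
      rcases Finset.mem_insert.1 hA with h | h
      · rw [h, Finset.mem_singleton] at hx
        exact Or.inl hx
      · exact Or.inr ⟨A, h, hx⟩
    · rintro (h | ⟨A, hA, hx⟩)
      · exact ⟨{v}, Finset.mem_insert_self _ _, Finset.mem_singleton.2 h⟩
      · exact ⟨A, Finset.mem_insert_of_mem hA, hx⟩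

/-! ## Chains -/

/-- The set version of `chain`. -/
def evalS : List (V × Bool) → V → Finset V → Prop
  | [], j, S => j ∈ S
  | (i, true) :: l, j, S => i ∈ S ∧ evalS l j S
  | (i, false) :: l, j, S => i ∈ S ∨ evalS l j S

/-- Exchange `∧` and `∨`. -/
def flip (l : List (V × Bool)) : List (V × Bool) := l.map fun p => (p.1, !p.2)

theorem flip_fst (l : List (V × Bool)) : (flip l).map Prod.fst = l.map Prod.fst := by
  simp [flip, Function.comp_def]

theorem evalS_up (l : List (V × Bool)) (j : V) : Up (evalS l j) := by
  induction l with
  | nil => intro S T hST h; exact hST h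
  | cons p l ih =>
    obtain ⟨i, b⟩ := p
    intro S T hST h
    cases b
    · exact h.imp (fun h => hST h) (ih S T hST)
    · exact ⟨hST h.1, ih S T hST h.2⟩

theorem evalS_empty (l : List (V × Bool)) (j : V) : ¬ evalS l j ∅ := by
  induction l with
  | nil => exact Finset.notMem_empty _
  | cons p l ih =>
    obtain ⟨i, b⟩ := p
    cases b
    · rintro (h | h)
      · exact absurd h (Finset.notMem_empty _)
      · exact ih h
    · rintro ⟨h, -⟩
      exact absurd h (Finset.notMem_empty _)

theorem evalS_indep (l : List (V × Bool)) (j : V) {v : V} (hv : v ∉ l.map Prod.fst ++ [j])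
    (S : Finset V) (h : evalS l j (insert v S)) : evalS l j S := by
  induction l with
  | nil =>
    simp only [List.map_nil, List.nil_append, List.mem_singleton] at hv
    exact (Finset.mem_insert.1 h).resolve_left fun h => hv h.symm
  | cons p l ih =>
    obtain ⟨i, b⟩ := p
    simp only [List.map_cons, List.cons_append, List.mem_cons, not_or] at hv
    have ih' := ih hv.2
    cases b
    · rcases h with h | h
      · exact Or.inl ((Finset.mem_insert.1 h).resolve_left fun h => hv.1 h.symm)
      · exact Or.inr (ih' h)
    · exact ⟨(Finset.mem_insert.1 h.1).resolve_left fun h => hv.1 h.symm, ih' h.2⟩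

theorem dual_evalS (l : List (V × Bool)) (j : V) : dual (evalS l j) = evalS (flip l) j := by
  induction l with
  | nil =>
    funext S
    simp [dual, evalS, flip]
  | cons p l ih =>
    obtain ⟨i, b⟩ := p
    funext S
    have ih' := congrFun ih S
    simp only [dual] at ih'
    cases b
    · change (¬ (i ∈ Sᶜ ∨ evalS l j Sᶜ)) = (i ∈ S ∧ evalS (flip l) j S)
      rw [← ih', not_or, Finset.mem_compl, not_not]
    · change (¬ (i ∈ Sᶜ ∧ evalS l j Sᶜ)) = (i ∈ S ∨ evalS (flip l) j S)
      rw [← ih', Finset.mem_compl, not_and_or, not_not]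

theorem count_false : count (fun _ : Finset V => False) = 1 := by
  have h1 : mins (fun _ : Finset V => False) = ∅ := by
    ext S; simp [mem_mins]
  have h2 : mins (dual (fun _ : Finset V => False)) = {∅} := by
    ext S
    rw [mem_mins, Finset.mem_singleton]
    constructor
    · rintro ⟨-, h⟩
      by_contra hne
      exact h ∅ (Finset.empty_ssubset.2 (Finset.nonempty_iff_ne_empty.2 hne)) (fun h => h)
    · rintro rfl
      exact ⟨fun h => h, fun T hT => absurd hT (Finset.not_ssubset_empty T)⟩
  unfold count
  rw [h1, h2]
  rfl

theorem rel_false : rel (fun _ : Finset V => False) = ∅ := by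
  ext v; simp [mem_rel]

theorem count_evalS (l : List (V × Bool)) (j : V) (hnd : (l.map Prod.fst ++ [j]).Nodup) :
    count (evalS l j) = (rel (evalS l j)).card + 1 := by
  induction l with
  | nil =>
    obtain ⟨h1, h2, h3⟩ := or_step (F := evalS [] j) (G := fun _ : Finset V => False) (v := j)
      (fun _ _ _ h => h) (fun _ h => h) (fun h => h) (fun S => by simp [evalS])
    rw [h1, h3, Finset.card_insert_of_notMem h2, count_false, rel_false]
    rfl
  | cons p l ih =>
    obtain ⟨i, b⟩ := p
    simp only [List.map_cons, List.cons_append, List.nodup_cons] at hnd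
    have ih' := ih hnd.2
    cases b
    · obtain ⟨h1, h2, h3⟩ := or_step (F := evalS ((i, false) :: l) j) (G := evalS l j) (v := i)
        (evalS_up l j) (fun S => evalS_indep l j hnd.1 S) (evalS_empty l j) (fun S => Iff.rfl)
      rw [h1, h3, Finset.card_insert_of_notMem h2, ih']
    · have hi : i ∉ (flip l).map Prod.fst ++ [j] := by rw [flip_fst]; exact hnd.1
      obtain ⟨h1, h2, h3⟩ := or_step (F := evalS ((i, false) :: flip l) j) (G := evalS (flip l) j)
        (v := i) (evalS_up _ j) (fun S => evalS_indep _ j hi S) (evalS_empty _ j)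
        (fun S => Iff.rfl)
      have h4 : dual (evalS ((i, true) :: l) j) = evalS ((i, false) :: flip l) j := by
        rw [dual_evalS]; rfl
      rw [← h4, count_dual, ← dual_evalS, count_dual] at h1
      rw [← h4, rel_dual (evalS_up _ _), ← dual_evalS, rel_dual (evalS_up _ _)] at h3
      rw [← dual_evalS, rel_dual (evalS_up _ _)] at h2
      rw [h1, h3, Finset.card_insert_of_notMem h2, ih']

/-- The set version of `LinearReadOnce`. -/
def LRO (F : Finset V → Prop) : Prop :=
  (∀ S, F S) ∨ (∀ S, ¬ F S) ∨ ∃ (l : List (V × Bool)) (j : V), (l.map Prod.fst ++ [j]).Nodup ∧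
    (∀ i, i ∈ rel F ↔ i ∈ l.map Prod.fst ++ [j]) ∧ F = evalS l j

theorem LRO_of_dual {F : Finset V → Prop} (hF : Up F) (h : LRO (dual F)) : LRO F := by
  rcases h with h | h | ⟨l, j, h1, h2, h3⟩
  · right; left
    intro S
    have := h Sᶜ
    simpa [dual] using this
  · left
    intro S
    have := h Sᶜ
    simpa [dual] using this
  · right; right
    refine ⟨flip l, j, by rw [flip_fst]; exact h1, ?_, ?_⟩
    · rw [flip_fst]; rw [rel_dual hF] at h2; exact h2
    · rw [← dual_evalS, ← h3, dual_dual]

theorem LRO_of_count (n : ℕ) : ∀ F : Finset V → Prop, Up F → (rel F).card = n →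
    count F = n + 1 → LRO F := by
  induction n using Nat.strong_induction_on with
  | _ n ih =>
    have orcase : ∀ F : Finset V → Prop, Up F → (rel F).card = n → count F = n + 1 →
        (∃ v, ({v} : Finset V) ∈ mins F) → LRO F := by
      rintro F hF hn hcount ⟨v, hv⟩
      have hFv : ∀ S, v ∈ S → F S := fun S h =>
        hF {v} S (Finset.singleton_subset_iff.2 h) (mem_mins.1 hv).1
      have hG : Up (fun S : Finset V => F (S.erase v)) :=
        fun S T hST h => hF _ _ (Finset.erase_subset_erase v hST) h
      have hG0 : ¬ (fun S : Finset V => F (S.erase v)) ∅ := by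
        change ¬ F ((∅ : Finset V).erase v)
        rw [Finset.erase_empty]
        exact (mem_mins.1 hv).2 ∅ (Finset.empty_ssubset.2 (Finset.singleton_nonempty v))
      have hGv : ∀ S, (fun S : Finset V => F (S.erase v)) (insert v S) →
          (fun S : Finset V => F (S.erase v)) S := by
        intro S h
        change F ((insert v S).erase v) at h
        change F (S.erase v)
        rwa [Finset.erase_insert_eq_erase] at h
      have hFG : ∀ S, F S ↔ v ∈ S ∨ (fun S : Finset V => F (S.erase v)) S := by
        intro S
        constructor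
        · intro h
          by_cases hvS : v ∈ S
          · exact Or.inl hvS
          · right
            simp only [Finset.erase_eq_of_notMem hvS]
            exact h
        · rintro (h | h)
          · exact hFv S h
          · exact hF _ _ (Finset.erase_subset _ _) h
      obtain ⟨h1, h2, h3⟩ := or_step hG hGv hG0 hFG
      have h4 : (rel F).card = (rel fun S : Finset V => F (S.erase v)).card + 1 := by
        rw [h3, Finset.card_insert_of_notMem h2]
      have h5 := ih (rel fun S : Finset V => F (S.erase v)).card (by omega) _ hG rfl (by omega)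
      rcases h5 with h5 | h5 | ⟨l, j, h6, h7, h8⟩
      · exact absurd (h5 ∅) hG0
      · right; right
        have h9 : (fun S : Finset V => F (S.erase v)) = fun _ => False := by
          funext S; exact propext ⟨h5 S, fun h => h.elim⟩
        refine ⟨[], v, by simp, ?_, ?_⟩
        · intro i
          rw [h3, h9, rel_false]
          simp
        · funext S
          apply propext
          rw [hFG]
          constructor
          · rintro (h | h)
            · exact h
            · exact absurd h (h5 S)
          · intro h; exact Or.inl h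
      · right; right
        refine ⟨(v, false) :: l, j, ?_, ?_, ?_⟩
        · simp only [List.map_cons, List.cons_append, List.nodup_cons]
          exact ⟨fun h => h2 ((h7 v).2 h), h6⟩
        · intro i
          rw [h3, Finset.mem_insert, h7 i]
          simp only [List.map_cons, List.cons_append, List.mem_cons]
        · funext S
          apply propext
          rw [hFG, h8]
          rfl
    intro F hF hn hcount
    by_cases hall : ∀ S, F S
    · exact Or.inl hall
    by_cases hnone : ∀ S, ¬ F S
    · exact Or.inr (Or.inl hnone)
    push Not at hall hnone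
    have hP : (mins F).Nonempty := by
      obtain ⟨S, hS⟩ := hnone
      obtain ⟨A, hA, -⟩ := exists_min hS
      exact ⟨A, hA⟩
    have hQ : (mins (dual F)).Nonempty := by
      obtain ⟨S, hS⟩ := hall
      have : dual F Sᶜ := by simpa [dual] using hS
      obtain ⟨A, hA, -⟩ := exists_min this
      exact ⟨A, hA⟩
    obtain ⟨v, hv⟩ := (dualPair hF).exists_singleton hP hQ (by
      rw [supp_mins hF, hn]; exact hcount)
    rcases hv with hv | hv
    · exact orcase F hF hn hcount ⟨v, hv⟩
    · exact LRO_of_dual hF (orcase (dual F) (up_dual hF) (by rw [rel_dual hF]; exact hn)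
        (by rw [count_dual]; exact hcount) ⟨v, hv⟩)

theorem count_iff {F : Finset V → Prop} (hF : Up F) : count F = (rel F).card + 1 ↔ LRO F := by
  constructor
  · intro h
    exact LRO_of_count _ F hF rfl h
  · rintro (h | h | ⟨l, j, h1, -, h3⟩)
    · have h1 : dual F = fun _ => False := by
        funext S
        simp [dual, h]
      rw [← count_dual, ← rel_dual hF, h1, count_false, rel_false]
      rfl
    · have h1 : F = fun _ => False := by
        funext S
        simp [h]
      rw [h1, count_false, rel_false]
      rfl
    · rw [h3]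
      exact count_evalS l j h1

end sets

/-! ## Transfer -/

/-- The indicator function of a set. -/
def ind {m : ℕ} (S : Finset (Fin m)) : Fin m → Bool := fun i => decide (i ∈ S)

theorem ind_inj {m : ℕ} : Function.Injective (ind (m := m)) := by
  intro S T h
  ext i
  have := congrFun h i
  simpa [ind] using this

theorem ind_surj {m : ℕ} (x : Fin m → Bool) : ∃ S, ind S = x := by
  refine ⟨Finset.univ.filter fun i => x i = true, ?_⟩
  funext i
  simp [ind]

theorem ind_le {m : ℕ} {S T : Finset (Fin m)} : ind S ≤ ind T ↔ S ⊆ T := by
  constructor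
  · intro h i hi
    have := h i
    simp only [ind, hi, decide_true] at this
    by_contra h'
    simp only [h', decide_false] at this
    exact absurd (le_antisymm this (Bool.false_le _)) (by simp)
  · intro h i
    simp only [ind]
    by_cases hi : i ∈ S
    · simp [hi, h hi]
    · simp [hi]

theorem ind_lt {m : ℕ} {S T : Finset (Fin m)} : ind S < ind T ↔ S ⊂ T := by
  rw [lt_iff_le_not_ge, ind_le, ind_le]
  rfl

theorem chain_ind {m : ℕ} (l : List (Fin m × Bool)) (j : Fin m) (S : Finset (Fin m)) :
    chain l j (ind S) = true ↔ evalS l j S := by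
  induction l with
  | nil => simp [chain, evalS, ind]
  | cons p l ih =>
    obtain ⟨i, b⟩ := p
    cases b
    · simp only [chain, evalS, Bool.or_eq_true, ih]
      simp [ind]
    · simp only [chain, evalS, Bool.and_eq_true, ih]
      simp [ind]

section transfer

variable {m : ℕ} (f : (Fin m → Bool) → Bool)

/-- The family of sets of a Boolean function. -/
def fam : Finset (Fin m) → Prop := fun S => f (ind S) = true

variable {f}

theorem fam_up (hf : Monotone f) : Up (fam f) := by
  intro S T hST hS
  have h1 := hf (ind_le.2 hST)
  unfold fam at hS ⊢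
  rw [hS] at h1
  exact top_le_iff.1 h1

theorem minOne_iff (S : Finset (Fin m)) : MinOne f (ind S) ↔ S ∈ mins (fam f) := by
  rw [mem_mins]
  refine and_congr Iff.rfl ⟨fun h T hT => ?_, fun h y hy => ?_⟩
  · unfold fam
    rw [h _ (ind_lt.2 hT)]
    exact Bool.false_ne_true
  · obtain ⟨T, rfl⟩ := ind_surj y
    have := h T (ind_lt.1 hy)
    unfold fam at this
    simpa using this

theorem maxZero_iff (S : Finset (Fin m)) : MaxZero f (ind Sᶜ) ↔ S ∈ mins (dual (fam f)) := by
  rw [mem_mins]
  refine and_congr ?_ ⟨fun h T hT => ?_, fun h y hy => ?_⟩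
  · unfold dual fam
    simp
  · unfold dual fam
    rw [h _ (ind_lt.2 (Finset.compl_ssubset_compl.2 hT))]
    simp
  · obtain ⟨T, rfl⟩ := ind_surj y
    have h1 : Tᶜ ⊂ S := by
      have := Finset.compl_ssubset_compl.2 (ind_lt.1 hy)
      rwa [compl_compl] at this
    have := h Tᶜ h1
    unfold dual fam at this
    simpa using this

theorem ext_eq : ext f = count (fam f) := by
  classical
  unfold ext count
  rw [Finset.filter_or, Finset.card_union_of_disjoint]
  · congr 1
    · symm
      refine Finset.card_bij (fun S _ => ind S) ?_ (fun _ _ _ _ h => ind_inj h) ?_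
      · intro S hS
        rw [Finset.mem_filter]
        exact ⟨Finset.mem_univ _, (minOne_iff S).2 hS⟩
      · intro x hx
        rw [Finset.mem_filter] at hx
        obtain ⟨S, rfl⟩ := ind_surj x
        exact ⟨S, (minOne_iff S).1 hx.2, rfl⟩
    · symm
      refine Finset.card_bij (fun S _ => ind Sᶜ) ?_ (fun _ _ _ _ h => compl_injective (ind_inj h)) ?_
      · intro S hS
        rw [Finset.mem_filter]
        exact ⟨Finset.mem_univ _, (maxZero_iff S).2 hS⟩
      · intro x hx
        rw [Finset.mem_filter] at hx
        obtain ⟨S, rfl⟩ := ind_surj x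
        refine ⟨Sᶜ, (maxZero_iff Sᶜ).1 ?_, by rw [compl_compl]⟩
        rw [compl_compl]
        exact hx.2
  · rw [Finset.disjoint_left]
    intro x h1 h2
    rw [Finset.mem_filter] at h1 h2
    have h3 := h1.2.1
    rw [h2.2.1] at h3
    exact Bool.false_ne_true h3

theorem relevant_iff (hf : Monotone f) (i : Fin m) : Relevant f i ↔ i ∈ rel (fam f) := by
  rw [mem_rel]
  constructor
  · rintro ⟨x, y, hxy, hne⟩
    obtain ⟨S, rfl⟩ := ind_surj x
    obtain ⟨T, rfl⟩ := ind_surj y
    have hST : ∀ j, j ≠ i → (j ∈ S ↔ j ∈ T) := by
      intro j hj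
      have := hxy j hj
      simpa [ind] using this
    have e1 : insert i S = insert i T := by
      ext j
      by_cases hj : j = i
      · simp [hj]
      · simp [hj, hST j hj]
    have e2 : S.erase i = T.erase i := by
      ext j
      by_cases hj : j = i
      · simp [hj]
      · simp [hj, hST j hj]
    by_contra hcon
    push Not at hcon
    -- `f` has the same value at `S` and at `T`
    have h1 : ∀ X : Finset (Fin m), insert i X = insert i S → X.erase i = S.erase i →
        (fam f X ↔ fam f (insert i S)) := by
      intro X h1 h2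
      constructor
      · intro h
        rw [← h1]
        exact fam_up hf _ _ (Finset.subset_insert _ _) h
      · intro h
        have h3 := hcon S h
        rw [← h2] at h3
        exact fam_up hf _ _ (Finset.erase_subset _ _) h3
    have h2 := (h1 S rfl rfl).trans (h1 T e1.symm e2.symm).symm
    unfold fam at h2
    apply hne
    cases h3 : f (ind S) <;> cases h4 : f (ind T) <;> simp_all
  · rintro ⟨S, h1, h2⟩
    refine ⟨ind (insert i S), ind (S.erase i), ?_, ?_⟩
    · intro j hj
      simp [ind, hj]
    · intro h
      apply h2
      unfold fam at h1 ⊢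
      rw [← h]; exact h1

theorem lro_iff (hf : Monotone f) : LinearReadOnce f ↔ LRO (fam f) := by
  constructor
  · rintro (⟨b, hb⟩ | ⟨l, j, h1, h2, h3⟩)
    · cases b
      · right; left
        intro S
        unfold fam
        rw [hb]; exact Bool.false_ne_true
      · left
        intro S
        exact hb _
    · right; right
      refine ⟨l, j, h1, fun i => by rw [← relevant_iff hf]; exact h2 i, ?_⟩
      funext S
      apply propext
      rw [← chain_ind, ← h3]
      exact Iff.rfl
  · rintro (h | h | ⟨l, j, h1, h2, h3⟩)
    · left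
      refine ⟨true, fun x => ?_⟩
      obtain ⟨S, rfl⟩ := ind_surj x
      exact h S
    · left
      refine ⟨false, fun x => ?_⟩
      obtain ⟨S, rfl⟩ := ind_surj x
      have := h S
      unfold fam at this
      simpa using this
    · right
      refine ⟨l, j, h1, fun i => by rw [relevant_iff hf]; exact h2 i, ?_⟩
      intro x
      obtain ⟨S, rfl⟩ := ind_surj x
      have h4 : fam f S ↔ evalS l j S := by rw [h3]
      rw [← chain_ind] at h4
      unfold fam at h4
      cases h5 : f (ind S) <;> cases h6 : chain l j (ind S) <;> simp_all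

theorem numRelevant_eq (hf : Monotone f) : numRelevant f = (rel (fam f)).card := by
  classical
  unfold numRelevant
  congr 1
  ext i
  rw [Finset.mem_filter]
  exact ⟨fun h => (relevant_iff hf i).1 h.2, fun h => ⟨Finset.mem_univ _, (relevant_iff hf i).2 h⟩⟩

end transfer

/-- **Q1 is true**: a positive Boolean function with exactly `n` relevant variables has exactly
`n + 1` extremal points if and only if it is linear read-once. -/
theorem result (n m : ℕ) (f : (Fin m → Bool) → Bool) (hf : Monotone f)
    (hn : numRelevant f = n) : ext f = n + 1 ↔ LinearReadOnce f := by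
  rw [ext_eq, ← hn, numRelevant_eq hf, lro_iff hf]
  exact count_iff (fam_up hf)

end Pool.Agent.Results.MP_61c8b8_co.ExtremalPoints
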